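import Pool.Agent.H34.PLE.ReorderFast
import Pool.Agent.H34.R4.CEnd
import Pool.Agent.H95.TB.T0

/-! Isomorphism of two lists of rows (generated). -/

set_option maxRecDepth 1000000

namespace Pool.Agent.H34.R4.LinkCT

open Pool.Agent.H34.PLE

/-- the second list in the order of the first one -/
def Lp : List ℕ := [0xb50000b50000b40000b40000b30000b30000b20000a40000b10000b0, 0xba0000ba0000b90000b90000b80000b80000b00000b70000ad0000b6, 0xbf0000bf0000be0000be0000bd0000bd0000b60000bc0000bb0000b2, 0xa10000a10000a00000a000009f00009100009e00009d00006a00009c, 0xa60000a60000a50000a500009e0000a400009f0000a300006e0000a2, 0xab0000ab0000aa0000aa0000a900009a0000a800009c0000a700009d, 0xaf0000af0000ae0000ae0000a80000ad0000a90000a20000ac0000a3, 0x8d00008d00008c00007d00008b00008a00008a00008900005a000088,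 0x97000097000096000087000095000094000094000088000093000089, 0x9200009200008b00009100008c00009000009000008f00005f00008e, 0x9b00009b00009500009a00009600009900009900008e00009800008f, 0x78000077000076000075000075000074000074000073000045000072, 0x8300008200008100008000008000007f00007f00007200007e000073, 0x7600007d00007800007c00007c00007b00007b00007a00004b000079, 0x8100008700008300008600008600008500008500007900008400007a, 0x67000067000066000066000065000057000064000063000062000062, 0x6c00006c00006b00006b00006300006a000060000069000068000068, 0x7100007100007000007000006900006f00006e00006500006d00006d, 0x5300005300005200004300005100005000003100004f00004e00004e, 0x5d00005d00005c00004d00005b00004f00005a000050000059000059, 0x58000058000051000057000052000056000035000055000054000054, 0x6100006100005b00006000005c00005500005f00005600005e00005e,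 0x3e00003d00003c00003b00003b00003a000020000039000038000038, 0x4900004800004700004600004600003900004500003a000044000044, 0x3c00004300003e00004200004200004100002600004000003f00003f, 0x4700004d00004900004c00004c00004000004b00004100004a00004a, 0x2d00002d00002c00001d00002b00002a000029000029000028000028, 0xe60000e60000e50000d800002b0000e40000e30000e30000e20000e2, 0xeb0000eb0000e40000ea0000e10000e90000e80000e80000e70000e7, 0xef0000ef0000e90000360000ee0000e50000ed0000ed0000ec0000ec, 0xd30000170000d20000d10000c90000d00000cf0000cf0000ce0000ce, 0xdd0000220000dc0000d00000db0000d10000da0000da0000d90000d9, 0xd20000d80000d30000d70000cd0000d60000d50000d50000d40000d4, 0x1600001d00001800001c00001000001b00001a00001a000019000019, 0xdc0000e10000dd0000d60000e00000d70000df0000df0000de0000de, 0x2300002200002100001400002000001500001f00001f00001e00001e,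 0x16000016000015f00015f00015e00015e00015d0001520000b100015c, 0x16400016400016300016300016200016200015c0000b7000159000161, 0x1670001670001660001660001650001650001610000bc0000bb00015d, 0x14f00014f00014e00014e00014d00014100014c00014b00011f00014a, 0x15400015400015300015300014c00015200014d000151000123000150, 0x15800015800015700015700015600014800015500014a0000a700014b, 0x15b00015b00015a00015a0001550001590001560001500000ac000151, 0x14200014200013b00014100013c00014000014000013f00011500013e, 0x14900014900014400014800014500014700014700013e00009800013f, 0x13d00013d00013c00013000013b00013a00013a000139000110000138, 0x146000146000145000137000144000143000143000138000093000139, 0x12a00013000012b00012f00012f00012e00012e00012d00010100012c, 0x13300013700013400013600013600013500013500012c00008400012d,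 0x12b00007700012a0001290001290001280001280001270000fc000126, 0x13400008200013300013200013200013100013100012600007e000127, 0x11c00011c00011b00011b00011a00010d000064000119000118000118, 0x12100012100012000012000011900011f00011600011e00011d00011d, 0x12500012500012400012400011e00006f00012300011a000122000122, 0x10e00010e00010700010d00010800010c0000ee00010b00010a00010a, 0x11700011700011100011600011200010b00011500010c000114000114, 0x1090001090001080000fa0001070001060000ea000105000104000104, 0x11300011300011200010300011100010500011000010600010f00010f, 0xf40000fa0000f50000f90000f90000f80000e00000f70000f60000f6, 0xfe0001030000ff0001020001020000f70001010000f8000100000100, 0xf500003d0000f40000f30000f30000f20000db0000f10000f00000f0, 0xff0000480000fe0000fd0000fd0000f10000fc0000f20000fb0000fb,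 0x2100002700002300001b00002600001c000025000025000024000024, 0x1800001700001600001500000c000014000013000013000012000012, 0x3700003700003000003600003500002c000034000034000033000033, 0xc30000c900000b0000c80000c70000c70000c60000c60000c50000c5, 0x300000c00000b00000a000009000009000008000008000007000007, 0xa00001100001000000600000f00000f00000e00000e00000d00000d, 0xc80000110000cd0000c40000cc0000cc0000cb0000cb0000ca0000ca, 0x3200003200002a00003100002700003000002f00002f00002e00002e, 0x6000005000004000003000002000002000001000001000000000000, 0xc40000050000040000c30000c20000c20000c10000c10000c00000c0]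

/-- permutations of the vertices -/
def P : List (List ℕ) := [[9, 8, 7, 6, 0, 1, 2, 3, 4, 5], [9, 8, 7, 6, 0, 1, 2, 3, 4, 5], [9, 8, 7, 6, 0, 1, 2, 3, 4, 5], [9, 8, 7, 6, 0, 1, 2, 3, 4, 5], [9, 8, 7, 6, 0, 1, 2, 3, 4, 5], [9, 8, 7, 6, 0, 1, 2, 3, 4, 5], [9, 8, 7, 6, 0, 1, 2, 3, 4, 5], [9, 8, 7, 6, 5, 0, 1, 2, 3, 4], [9, 8, 7, 6, 5, 0, 1, 2, 3, 4], [9, 8, 7, 6, 5, 0, 1, 2, 3, 4], [9, 8, 7, 6, 5, 0, 1, 2, 3, 4], [9, 8, 7, 6, 5, 0, 1, 2, 3, 4], [9, 8, 7, 6, 5, 0, 1, 2, 3, 4], [9, 8, 7, 6, 5, 0, 1, 2, 3, 4], [9, 8, 7, 6, 5, 0, 1, 2, 3, 4], [9, 8, 7, 6, 0, 1, 2, 3, 4, 5], [9, 8, 7, 6, 0, 1, 2, 3, 4, 5], [9, 8, 7, 6, 0, 1, 2, 3, 4, 5], [9, 8, 7, 6, 5, 0, 1, 2, 3, 4], [9, 8, 7, 6, 5, 0, 1, 2, 3, 4], [9, 8, 7, 6, 5, 0, 1, 2, 3, 4], [9, 8, 7, 6, 5, 0, 1, 2, 3, 4], [9, 8, 7, 6, 5,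 0, 1, 2, 3, 4], [9, 8, 7, 6, 5, 0, 1, 2, 3, 4], [9, 8, 7, 6, 5, 0, 1, 2, 3, 4], [9, 8, 7, 6, 5, 0, 1, 2, 3, 4], [9, 8, 7, 6, 5, 4, 0, 1, 2, 3], [9, 8, 7, 6, 5, 4, 0, 1, 2, 3], [9, 8, 7, 6, 5, 4, 0, 1, 2, 3], [9, 8, 7, 6, 5, 4, 0, 1, 2, 3], [9, 8, 7, 6, 5, 4, 0, 1, 2, 3], [9, 8, 7, 6, 5, 4, 0, 1, 2, 3], [9, 8, 7, 6, 5, 4, 0, 1, 2, 3], [9, 8, 7, 6, 5, 4, 0, 1, 2, 3], [9, 8, 7, 6, 5, 4, 0, 1, 2, 3], [9, 8, 7, 6, 5, 4, 0, 1, 2, 3], [9, 8, 7, 6, 0, 1, 2, 3, 4, 5], [9, 8, 7, 6, 0, 1, 2, 3, 4, 5], [9, 8, 7, 6, 0, 1, 2, 3, 4, 5], [9, 8, 7, 6, 0, 1, 2, 3, 4, 5], [9, 8, 7, 6, 0, 1, 2, 3, 4, 5], [9, 8, 7, 6, 0, 1, 2, 3, 4, 5], [9, 8, 7, 6, 0, 1, 2, 3, 4, 5], [9, 8, 7, 6, 5, 0, 1, 2, 3, 4], [9, 8, 7, 6, 5, 0, 1, 2, 3, 4], [9, 8, 7, 6, 5, 0, 1, 2, 3, 4], [9, 8, 7, 6, 5, 0, 1, 2, 3, 4],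 [9, 8, 7, 6, 5, 0, 1, 2, 3, 4], [9, 8, 7, 6, 5, 0, 1, 2, 3, 4], [9, 8, 7, 6, 5, 0, 1, 2, 3, 4], [9, 8, 7, 6, 5, 0, 1, 2, 3, 4], [9, 8, 7, 6, 0, 1, 2, 3, 4, 5], [9, 8, 7, 6, 0, 1, 2, 3, 4, 5], [9, 8, 7, 6, 0, 1, 2, 3, 4, 5], [9, 8, 7, 6, 5, 0, 1, 2, 3, 4], [9, 8, 7, 6, 5, 0, 1, 2, 3, 4], [9, 8, 7, 6, 5, 0, 1, 2, 3, 4], [9, 8, 7, 6, 5, 0, 1, 2, 3, 4], [9, 8, 7, 6, 5, 0, 1, 2, 3, 4], [9, 8, 7, 6, 5, 0, 1, 2, 3, 4], [9, 8, 7, 6, 5, 0, 1, 2, 3, 4], [9, 8, 7, 6, 5, 0, 1, 2, 3, 4], [9, 8, 7, 6, 5, 4, 0, 1, 2, 3], [9, 8, 7, 6, 5, 4, 0, 1, 2, 3], [9, 8, 7, 6, 5, 4, 0, 1, 2, 3], [9, 8, 7, 6, 5, 4, 0, 1, 2, 3], [9, 8, 7, 6, 5, 4, 0, 1, 2, 3], [9, 8, 7, 6, 5, 4, 0, 1, 2, 3], [9, 8, 7, 6, 5, 4, 0, 1, 2, 3], [9, 8, 7, 6, 5, 4, 0, 1, 2, 3], [9, 8, 7, 6, 5, 4, 0, 1, 2, 3], [9, 8, 7, 6, 5,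 4, 0, 1, 2, 3]]

/-- their inverses -/
def Q : List (List ℕ) := [[4, 5, 6, 7, 8, 9, 3, 2, 1, 0], [4, 5, 6, 7, 8, 9, 3, 2, 1, 0], [4, 5, 6, 7, 8, 9, 3, 2, 1, 0], [4, 5, 6, 7, 8, 9, 3, 2, 1, 0], [4, 5, 6, 7, 8, 9, 3, 2, 1, 0], [4, 5, 6, 7, 8, 9, 3, 2, 1, 0], [4, 5, 6, 7, 8, 9, 3, 2, 1, 0], [5, 6, 7, 8, 9, 4, 3, 2, 1, 0], [5, 6, 7, 8, 9, 4, 3, 2, 1, 0], [5, 6, 7, 8, 9, 4, 3, 2, 1, 0], [5, 6, 7, 8, 9, 4, 3, 2, 1, 0], [5, 6, 7, 8, 9, 4, 3, 2, 1, 0], [5, 6, 7, 8, 9, 4, 3, 2, 1, 0], [5, 6, 7, 8, 9, 4, 3, 2, 1, 0], [5, 6, 7, 8, 9, 4, 3, 2, 1, 0], [4, 5, 6, 7, 8, 9, 3, 2, 1, 0], [4, 5, 6, 7, 8, 9, 3, 2, 1, 0], [4, 5, 6, 7, 8, 9, 3, 2, 1, 0], [5, 6, 7, 8, 9, 4, 3, 2, 1, 0], [5, 6, 7, 8, 9, 4, 3, 2, 1, 0], [5, 6, 7, 8, 9, 4, 3, 2, 1, 0], [5, 6, 7, 8, 9, 4, 3, 2, 1, 0], [5, 6, 7, 8, 9,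 4, 3, 2, 1, 0], [5, 6, 7, 8, 9, 4, 3, 2, 1, 0], [5, 6, 7, 8, 9, 4, 3, 2, 1, 0], [5, 6, 7, 8, 9, 4, 3, 2, 1, 0], [6, 7, 8, 9, 5, 4, 3, 2, 1, 0], [6, 7, 8, 9, 5, 4, 3, 2, 1, 0], [6, 7, 8, 9, 5, 4, 3, 2, 1, 0], [6, 7, 8, 9, 5, 4, 3, 2, 1, 0], [6, 7, 8, 9, 5, 4, 3, 2, 1, 0], [6, 7, 8, 9, 5, 4, 3, 2, 1, 0], [6, 7, 8, 9, 5, 4, 3, 2, 1, 0], [6, 7, 8, 9, 5, 4, 3, 2, 1, 0], [6, 7, 8, 9, 5, 4, 3, 2, 1, 0], [6, 7, 8, 9, 5, 4, 3, 2, 1, 0], [4, 5, 6, 7, 8, 9, 3, 2, 1, 0], [4, 5, 6, 7, 8, 9, 3, 2, 1, 0], [4, 5, 6, 7, 8, 9, 3, 2, 1, 0], [4, 5, 6, 7, 8, 9, 3, 2, 1, 0], [4, 5, 6, 7, 8, 9, 3, 2, 1, 0], [4, 5, 6, 7, 8, 9, 3, 2, 1, 0], [4, 5, 6, 7, 8, 9, 3, 2, 1, 0], [5, 6, 7, 8, 9, 4, 3, 2, 1, 0], [5, 6, 7, 8, 9, 4, 3, 2, 1, 0], [5, 6, 7, 8, 9, 4, 3, 2, 1, 0], [5, 6, 7, 8, 9, 4, 3, 2, 1, 0],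 [5, 6, 7, 8, 9, 4, 3, 2, 1, 0], [5, 6, 7, 8, 9, 4, 3, 2, 1, 0], [5, 6, 7, 8, 9, 4, 3, 2, 1, 0], [5, 6, 7, 8, 9, 4, 3, 2, 1, 0], [4, 5, 6, 7, 8, 9, 3, 2, 1, 0], [4, 5, 6, 7, 8, 9, 3, 2, 1, 0], [4, 5, 6, 7, 8, 9, 3, 2, 1, 0], [5, 6, 7, 8, 9, 4, 3, 2, 1, 0], [5, 6, 7, 8, 9, 4, 3, 2, 1, 0], [5, 6, 7, 8, 9, 4, 3, 2, 1, 0], [5, 6, 7, 8, 9, 4, 3, 2, 1, 0], [5, 6, 7, 8, 9, 4, 3, 2, 1, 0], [5, 6, 7, 8, 9, 4, 3, 2, 1, 0], [5, 6, 7, 8, 9, 4, 3, 2, 1, 0], [5, 6, 7, 8, 9, 4, 3, 2, 1, 0], [6, 7, 8, 9, 5, 4, 3, 2, 1, 0], [6, 7, 8, 9, 5, 4, 3, 2, 1, 0], [6, 7, 8, 9, 5, 4, 3, 2, 1, 0], [6, 7, 8, 9, 5, 4, 3, 2, 1, 0], [6, 7, 8, 9, 5, 4, 3, 2, 1, 0], [6, 7, 8, 9, 5, 4, 3, 2, 1, 0], [6, 7, 8, 9, 5, 4, 3, 2, 1, 0], [6, 7, 8, 9, 5, 4, 3, 2, 1, 0], [6, 7, 8, 9, 5, 4, 3, 2, 1, 0], [6, 7, 8, 9, 5,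 4, 3, 2, 1, 0]]

/-- the images of the labels -/
noncomputable def F : NT (ℕ × List ℕ) := (.node 0xe9 (.node 0x5b (.node 0x2e (.node 0x17 (.node 0xc (.node 0x6 (.node 0x3 (.node 0x2 (.leaf (0xb5, [8, 7, 6, 0, 1, 2, 3, 4, 5])) (.leaf (0xb4, [8, 7, 6, 0, 1, 2, 3, 4, 5]))) (.node 0x4 (.leaf (0xb0, [8, 7, 6, 5, 0, 1, 2, 3, 4])) (.node 0x5 (.leaf (0xb1, [8, 7, 6, 5, 0, 1, 2, 3, 4])) (.leaf (0xa4, [8, 7, 6, 5, 0, 1, 2, 3, 4]))))) (.node 0x9 (.node 0x7 (.leaf (0xb2, [8, 7, 6, 5, 0, 1, 2, 3, 4])) (.node 0x8 (.leaf (0xb3, [8, 7, 6, 5, 0, 1, 2, 3, 4])) (.leaf (0xba, [8, 7, 6, 0, 1, 2, 3, 4, 5])))) (.node 0xa (.leaf (0xb9, [8, 7, 6, 0, 1, 2, 3, 4, 5])) (.node 0xb (.leaf (0xb6, [8, 7, 6, 5, 0, 1, 2, 3, 4])) (.leaf (0xad, [8, 7, 6, 5, 0, 1, 2, 3, 4])))))) (.node 0x11 (.node 0xe (.node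 0xd (.leaf (0xb7, [8, 7, 6, 5, 0, 1, 2, 3, 4])) (.leaf (0xb8, [8, 7, 6, 5, 0, 1, 2, 3, 4]))) (.node 0xf (.leaf (0xbf, [8, 7, 6, 0, 1, 2, 3, 4, 5])) (.node 0x10 (.leaf (0xbe, [8, 7, 6, 0, 1, 2, 3, 4, 5])) (.leaf (0xbb, [8, 7, 6, 5, 0, 1, 2, 3, 4]))))) (.node 0x14 (.node 0x12 (.leaf (0xbc, [8, 7, 6, 5, 0, 1, 2, 3, 4])) (.node 0x13 (.leaf (0xbd, [8, 7, 6, 5, 0, 1, 2, 3, 4])) (.leaf (0xa1, [8, 7, 6, 0, 1, 2, 3, 4, 5])))) (.node 0x15 (.leaf (0xa0, [8, 7, 6, 0, 1, 2, 3, 4, 5])) (.node 0x16 (.leaf (0x9c, [8, 7, 6, 5, 0, 1, 2, 3, 4])) (.leaf (0x6a, [8, 7, 6, 5, 0, 1, 2, 3, 4]))))))) (.node 0x22 (.node 0x1c (.node 0x19 (.node 0x18 (.leaf (0x9d, [8, 7, 6, 5, 0, 1, 2, 3, 4])) (.leaf (0x9e, [8, 7, 6, 5, 0, 1, 2, 3, 4]))) (.node 0x1a (.leaf (0x91, [8, 7, 6, 5, 0, 1, 2, 3, 4])) (.node 0x1b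 (.leaf (0x9f, [8, 7, 6, 5, 0, 1, 2, 3, 4])) (.leaf (0xa6, [8, 7, 6, 0, 1, 2, 3, 4, 5]))))) (.node 0x1f (.node 0x1d (.leaf (0xa5, [8, 7, 6, 0, 1, 2, 3, 4, 5])) (.node 0x1e (.leaf (0xa2, [8, 7, 6, 5, 0, 1, 2, 3, 4])) (.leaf (0x6e, [8, 7, 6, 5, 0, 1, 2, 3, 4])))) (.node 0x20 (.leaf (0xa3, [8, 7, 6, 5, 0, 1, 2, 3, 4])) (.node 0x21 (.leaf (0xab, [8, 7, 6, 0, 1, 2, 3, 4, 5])) (.leaf (0xaa, [8, 7, 6, 0, 1, 2, 3, 4, 5])))))) (.node 0x28 (.node 0x25 (.node 0x23 (.leaf (0xa7, [8, 7, 6, 5, 0, 1, 2, 3, 4])) (.node 0x24 (.leaf (0xa8, [8, 7, 6, 5, 0, 1, 2, 3, 4])) (.leaf (0x9a, [8, 7, 6, 5, 0, 1, 2, 3, 4])))) (.node 0x26 (.leaf (0xa9, [8, 7, 6, 5, 0, 1, 2, 3, 4])) (.node 0x27 (.leaf (0xaf, [8, 7, 6, 0, 1, 2, 3, 4, 5])) (.leaf (0xae, [8, 7, 6, 0, 1, 2, 3, 4, 5]))))) (.node 0x2b (.node 0x29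 (.leaf (0xac, [8, 7, 6, 5, 0, 1, 2, 3, 4])) (.node 0x2a (.leaf (0x8d, [8, 7, 6, 5, 0, 1, 2, 3, 4])) (.leaf (0x8c, [8, 7, 6, 5, 0, 1, 2, 3, 4])))) (.node 0x2c (.leaf (0x7d, [8, 7, 6, 5, 0, 1, 2, 3, 4])) (.node 0x2d (.leaf (0x8b, [8, 7, 6, 5, 0, 1, 2, 3, 4])) (.leaf (0x88, [8, 7, 6, 5, 4, 0, 1, 2, 3])))))))) (.node 0x44 (.node 0x39 (.node 0x33 (.node 0x30 (.node 0x2f (.leaf (0x5a, [8, 7, 6, 5, 4, 0, 1, 2, 3])) (.leaf (0x89, [8, 7, 6, 5, 4, 0, 1, 2, 3]))) (.node 0x31 (.leaf (0x8a, [8, 7, 6, 5, 4, 0, 1, 2, 3])) (.node 0x32 (.leaf (0x97, [8, 7, 6, 5, 0, 1, 2, 3, 4])) (.leaf (0x96, [8, 7, 6, 5, 0, 1, 2, 3, 4]))))) (.node 0x36 (.node 0x34 (.leaf (0x87, [8, 7, 6, 5, 0, 1, 2, 3, 4])) (.node 0x35 (.leaf (0x95, [8, 7, 6, 5, 0, 1, 2, 3, 4])) (.leaf (0x93, [8, 7, 6, 5, 4, 0, 1, 2, 3]))))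 (.node 0x37 (.leaf (0x94, [8, 7, 6, 5, 4, 0, 1, 2, 3])) (.node 0x38 (.leaf (0x92, [8, 7, 6, 5, 0, 1, 2, 3, 4])) (.leaf (0x8e, [8, 7, 6, 5, 4, 0, 1, 2, 3])))))) (.node 0x3e (.node 0x3b (.node 0x3a (.leaf (0x5f, [8, 7, 6, 5, 4, 0, 1, 2, 3])) (.leaf (0x8f, [8, 7, 6, 5, 4, 0, 1, 2, 3]))) (.node 0x3c (.leaf (0x90, [8, 7, 6, 5, 4, 0, 1, 2, 3])) (.node 0x3d (.leaf (0x9b, [8, 7, 6, 5, 0, 1, 2, 3, 4])) (.leaf (0x98, [8, 7, 6, 5, 4, 0, 1, 2, 3]))))) (.node 0x41 (.node 0x3f (.leaf (0x99, [8, 7, 6, 5, 4, 0, 1, 2, 3])) (.node 0x40 (.leaf (0x78, [8, 7, 6, 5, 0, 1, 2, 3, 4])) (.leaf (0x77, [8, 7, 6, 5, 0, 1, 2, 3, 4])))) (.node 0x42 (.leaf (0x76, [8, 7, 6, 5, 0, 1, 2, 3, 4])) (.node 0x43 (.leaf (0x75, [8, 7, 6, 5, 0, 1, 2, 3, 4])) (.leaf (0x72, [8, 7, 6, 5, 4, 0, 1, 2, 3]))))))) (.node 0x4f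 (.node 0x49 (.node 0x46 (.node 0x45 (.leaf (0x45, [8, 7, 6, 5, 4, 0, 1, 2, 3])) (.leaf (0x73, [8, 7, 6, 5, 4, 0, 1, 2, 3]))) (.node 0x47 (.leaf (0x74, [8, 7, 6, 5, 4, 0, 1, 2, 3])) (.node 0x48 (.leaf (0x83, [8, 7, 6, 5, 0, 1, 2, 3, 4])) (.leaf (0x82, [8, 7, 6, 5, 0, 1, 2, 3, 4]))))) (.node 0x4c (.node 0x4a (.leaf (0x81, [8, 7, 6, 5, 0, 1, 2, 3, 4])) (.node 0x4b (.leaf (0x80, [8, 7, 6, 5, 0, 1, 2, 3, 4])) (.leaf (0x7e, [8, 7, 6, 5, 4, 0, 1, 2, 3])))) (.node 0x4d (.leaf (0x7f, [8, 7, 6, 5, 4, 0, 1, 2, 3])) (.node 0x4e (.leaf (0x7c, [8, 7, 6, 5, 0, 1, 2, 3, 4])) (.leaf (0x79, [8, 7, 6, 5, 4, 0, 1, 2, 3])))))) (.node 0x55 (.node 0x52 (.node 0x50 (.leaf (0x4b, [8, 7, 6, 5, 4, 0, 1, 2, 3])) (.node 0x51 (.leaf (0x7a, [8, 7, 6, 5, 4, 0, 1, 2, 3])) (.leaf (0x7b, [8, 7, 6, 5, 4, 0,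 1, 2, 3])))) (.node 0x53 (.leaf (0x86, [8, 7, 6, 5, 0, 1, 2, 3, 4])) (.node 0x54 (.leaf (0x84, [8, 7, 6, 5, 4, 0, 1, 2, 3])) (.leaf (0x85, [8, 7, 6, 5, 4, 0, 1, 2, 3]))))) (.node 0x58 (.node 0x56 (.leaf (0x67, [8, 7, 6, 0, 1, 2, 3, 4, 5])) (.node 0x57 (.leaf (0x66, [8, 7, 6, 0, 1, 2, 3, 4, 5])) (.leaf (0x62, [8, 7, 6, 5, 0, 1, 2, 3, 4])))) (.node 0x59 (.leaf (0x63, [8, 7, 6, 5, 0, 1, 2, 3, 4])) (.node 0x5a (.leaf (0x64, [8, 7, 6, 5, 0, 1, 2, 3, 4])) (.leaf (0x57, [8, 7, 6, 5, 0, 1, 2, 3, 4]))))))))) (.node 0x88 (.node 0x71 (.node 0x66 (.node 0x60 (.node 0x5d (.node 0x5c (.leaf (0x65, [8, 7, 6, 5, 0, 1, 2, 3, 4])) (.leaf (0x6c, [8, 7, 6, 0, 1, 2, 3, 4, 5]))) (.node 0x5e (.leaf (0x6b, [8, 7, 6, 0, 1, 2, 3, 4, 5])) (.node 0x5f (.leaf (0x68, [8, 7, 6, 5, 0, 1, 2, 3, 4])) (.leaf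 (0x69, [8, 7, 6, 5, 0, 1, 2, 3, 4]))))) (.node 0x63 (.node 0x61 (.leaf (0x60, [8, 7, 6, 5, 0, 1, 2, 3, 4])) (.node 0x62 (.leaf (0x71, [8, 7, 6, 0, 1, 2, 3, 4, 5])) (.leaf (0x70, [8, 7, 6, 0, 1, 2, 3, 4, 5])))) (.node 0x64 (.leaf (0x6d, [8, 7, 6, 5, 0, 1, 2, 3, 4])) (.node 0x65 (.leaf (0x6f, [8, 7, 6, 5, 0, 1, 2, 3, 4])) (.leaf (0x53, [8, 7, 6, 5, 0, 1, 2, 3, 4])))))) (.node 0x6b (.node 0x68 (.node 0x67 (.leaf (0x52, [8, 7, 6, 5, 0, 1, 2, 3, 4])) (.leaf (0x43, [8, 7, 6, 5, 0, 1, 2, 3, 4]))) (.node 0x69 (.leaf (0x51, [8, 7, 6, 5, 0, 1, 2, 3, 4])) (.node 0x6a (.leaf (0x4e, [8, 7, 6, 5, 4, 0, 1, 2, 3])) (.leaf (0x4f, [8, 7, 6, 5, 4, 0, 1, 2, 3]))))) (.node 0x6e (.node 0x6c (.leaf (0x31, [8, 7, 6, 5, 4, 0, 1, 2, 3])) (.node 0x6d (.leaf (0x50, [8, 7, 6, 5, 4, 0, 1, 2, 3])) (.leaf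 (0x5d, [8, 7, 6, 5, 0, 1, 2, 3, 4])))) (.node 0x6f (.leaf (0x5c, [8, 7, 6, 5, 0, 1, 2, 3, 4])) (.node 0x70 (.leaf (0x4d, [8, 7, 6, 5, 0, 1, 2, 3, 4])) (.leaf (0x5b, [8, 7, 6, 5, 0, 1, 2, 3, 4]))))))) (.node 0x7c (.node 0x76 (.node 0x73 (.node 0x72 (.leaf (0x59, [8, 7, 6, 5, 4, 0, 1, 2, 3])) (.leaf (0x58, [8, 7, 6, 5, 0, 1, 2, 3, 4]))) (.node 0x74 (.leaf (0x54, [8, 7, 6, 5, 4, 0, 1, 2, 3])) (.node 0x75 (.leaf (0x55, [8, 7, 6, 5, 4, 0, 1, 2, 3])) (.leaf (0x35, [8, 7, 6, 5, 4, 0, 1, 2, 3]))))) (.node 0x79 (.node 0x77 (.leaf (0x56, [8, 7, 6, 5, 4, 0, 1, 2, 3])) (.node 0x78 (.leaf (0x61, [8, 7, 6, 5, 0, 1, 2, 3, 4])) (.leaf (0x5e, [8, 7, 6, 5, 4, 0, 1, 2, 3])))) (.node 0x7a (.leaf (0x3e, [8, 7, 6, 5, 0, 1, 2, 3, 4])) (.node 0x7b (.leaf (0x3d, [8, 7, 6, 5, 0, 1, 2, 3, 4])) (.leaf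 (0x3c, [8, 7, 6, 5, 0, 1, 2, 3, 4])))))) (.node 0x82 (.node 0x7f (.node 0x7d (.leaf (0x3b, [8, 7, 6, 5, 0, 1, 2, 3, 4])) (.node 0x7e (.leaf (0x38, [8, 7, 6, 5, 4, 0, 1, 2, 3])) (.leaf (0x39, [8, 7, 6, 5, 4, 0, 1, 2, 3])))) (.node 0x80 (.leaf (0x20, [8, 7, 6, 5, 4, 0, 1, 2, 3])) (.node 0x81 (.leaf (0x3a, [8, 7, 6, 5, 4, 0, 1, 2, 3])) (.leaf (0x49, [8, 7, 6, 5, 0, 1, 2, 3, 4]))))) (.node 0x85 (.node 0x83 (.leaf (0x48, [8, 7, 6, 5, 0, 1, 2, 3, 4])) (.node 0x84 (.leaf (0x47, [8, 7, 6, 5, 0, 1, 2, 3, 4])) (.leaf (0x46, [8, 7, 6, 5, 0, 1, 2, 3, 4])))) (.node 0x86 (.leaf (0x44, [8, 7, 6, 5, 4, 0, 1, 2, 3])) (.node 0x87 (.leaf (0x42, [8, 7, 6, 5, 0, 1, 2, 3, 4])) (.leaf (0x3f, [8, 7, 6, 5, 4, 0, 1, 2, 3])))))))) (.node 0xd2 (.node 0xc7 (.node 0xc1 (.node 0x8a (.node 0x89 (.leaf (0x40,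 [8, 7, 6, 5, 4, 0, 1, 2, 3])) (.leaf (0x26, [8, 7, 6, 5, 4, 0, 1, 2, 3]))) (.node 0x8b (.leaf (0x41, [8, 7, 6, 5, 4, 0, 1, 2, 3])) (.node 0x8c (.leaf (0x4c, [8, 7, 6, 5, 0, 1, 2, 3, 4])) (.leaf (0x4a, [8, 7, 6, 5, 4, 0, 1, 2, 3]))))) (.node 0xc4 (.node 0xc2 (.leaf (0x160, [8, 7, 6, 0, 1, 2, 3, 4, 5])) (.node 0xc3 (.leaf (0x15f, [8, 7, 6, 0, 1, 2, 3, 4, 5])) (.leaf (0x15c, [8, 7, 6, 5, 0, 1, 2, 3, 4])))) (.node 0xc5 (.leaf (0x152, [8, 7, 6, 5, 0, 1, 2, 3, 4])) (.node 0xc6 (.leaf (0x15d, [8, 7, 6, 5, 0, 1, 2, 3, 4])) (.leaf (0x15e, [8, 7, 6, 5, 0, 1, 2, 3, 4])))))) (.node 0xcc (.node 0xc9 (.node 0xc8 (.leaf (0x164, [8, 7, 6, 0, 1, 2, 3, 4, 5])) (.leaf (0x163, [8, 7, 6, 0, 1, 2, 3, 4, 5]))) (.node 0xca (.leaf (0x161, [8, 7, 6, 5, 0, 1, 2, 3, 4])) (.node 0xcb (.leaf (0x159, [8,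 7, 6, 5, 0, 1, 2, 3, 4])) (.leaf (0x162, [8, 7, 6, 5, 0, 1, 2, 3, 4]))))) (.node 0xcf (.node 0xcd (.leaf (0x167, [8, 7, 6, 0, 1, 2, 3, 4, 5])) (.node 0xce (.leaf (0x166, [8, 7, 6, 0, 1, 2, 3, 4, 5])) (.leaf (0x165, [8, 7, 6, 5, 0, 1, 2, 3, 4])))) (.node 0xd0 (.leaf (0x14f, [8, 7, 6, 0, 1, 2, 3, 4, 5])) (.node 0xd1 (.leaf (0x14e, [8, 7, 6, 0, 1, 2, 3, 4, 5])) (.leaf (0x14a, [8, 7, 6, 5, 0, 1, 2, 3, 4]))))))) (.node 0xdd (.node 0xd7 (.node 0xd4 (.node 0xd3 (.leaf (0x11f, [8, 7, 6, 5, 0, 1, 2, 3, 4])) (.leaf (0x14b, [8, 7, 6, 5, 0, 1, 2, 3, 4]))) (.node 0xd5 (.leaf (0x14c, [8, 7, 6, 5, 0, 1, 2, 3, 4])) (.node 0xd6 (.leaf (0x141, [8, 7, 6, 5, 0, 1, 2, 3, 4])) (.leaf (0x14d, [8, 7, 6, 5, 0, 1, 2, 3, 4]))))) (.node 0xda (.node 0xd8 (.leaf (0x154, [8, 7, 6, 0, 1, 2, 3, 4, 5])) (.node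 0xd9 (.leaf (0x153, [8, 7, 6, 0, 1, 2, 3, 4, 5])) (.leaf (0x150, [8, 7, 6, 5, 0, 1, 2, 3, 4])))) (.node 0xdb (.leaf (0x123, [8, 7, 6, 5, 0, 1, 2, 3, 4])) (.node 0xdc (.leaf (0x151, [8, 7, 6, 5, 0, 1, 2, 3, 4])) (.leaf (0x158, [8, 7, 6, 0, 1, 2, 3, 4, 5])))))) (.node 0xe3 (.node 0xe0 (.node 0xde (.leaf (0x157, [8, 7, 6, 0, 1, 2, 3, 4, 5])) (.node 0xdf (.leaf (0x155, [8, 7, 6, 5, 0, 1, 2, 3, 4])) (.leaf (0x148, [8, 7, 6, 5, 0, 1, 2, 3, 4])))) (.node 0xe1 (.leaf (0x156, [8, 7, 6, 5, 0, 1, 2, 3, 4])) (.node 0xe2 (.leaf (0x15b, [8, 7, 6, 0, 1, 2, 3, 4, 5])) (.leaf (0x15a, [8, 7, 6, 0, 1, 2, 3, 4, 5]))))) (.node 0xe6 (.node 0xe4 (.leaf (0x142, [8, 7, 6, 5, 0, 1, 2, 3, 4])) (.node 0xe5 (.leaf (0x13b, [8, 7, 6, 5, 0, 1, 2, 3, 4])) (.leaf (0x13c, [8, 7, 6, 5, 0, 1, 2, 3, 4])))) (.node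 0xe7 (.leaf (0x13e, [8, 7, 6, 5, 4, 0, 1, 2, 3])) (.node 0xe8 (.leaf (0x115, [8, 7, 6, 5, 4, 0, 1, 2, 3])) (.leaf (0x13f, [8, 7, 6, 5, 4, 0, 1, 2, 3])))))))))) (.node 0x4917f7 (.node 0x116 (.node 0xff (.node 0xf4 (.node 0xee (.node 0xeb (.node 0xea (.leaf (0x140, [8, 7, 6, 5, 4, 0, 1, 2, 3])) (.leaf (0x149, [8, 7, 6, 5, 0, 1, 2, 3, 4]))) (.node 0xec (.leaf (0x144, [8, 7, 6, 5, 0, 1, 2, 3, 4])) (.node 0xed (.leaf (0x145, [8, 7, 6, 5, 0, 1, 2, 3, 4])) (.leaf (0x147, [8, 7, 6, 5, 4, 0, 1, 2, 3]))))) (.node 0xf1 (.node 0xef (.leaf (0x13d, [8, 7, 6, 5, 0, 1, 2, 3, 4])) (.node 0xf0 (.leaf (0x130, [8, 7, 6, 5, 0, 1, 2, 3, 4])) (.leaf (0x138, [8, 7, 6, 5, 4, 0, 1, 2, 3])))) (.node 0xf2 (.leaf (0x110, [8, 7, 6, 5, 4, 0, 1, 2, 3])) (.node 0xf3 (.leaf (0x139, [8, 7, 6, 5, 4, 0, 1, 2,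 3])) (.leaf (0x13a, [8, 7, 6, 5, 4, 0, 1, 2, 3])))))) (.node 0xf9 (.node 0xf6 (.node 0xf5 (.leaf (0x146, [8, 7, 6, 5, 0, 1, 2, 3, 4])) (.leaf (0x137, [8, 7, 6, 5, 0, 1, 2, 3, 4]))) (.node 0xf7 (.leaf (0x143, [8, 7, 6, 5, 4, 0, 1, 2, 3])) (.node 0xf8 (.leaf (0x12a, [8, 7, 6, 5, 0, 1, 2, 3, 4])) (.leaf (0x12b, [8, 7, 6, 5, 0, 1, 2, 3, 4]))))) (.node 0xfc (.node 0xfa (.leaf (0x12f, [8, 7, 6, 5, 0, 1, 2, 3, 4])) (.node 0xfb (.leaf (0x12c, [8, 7, 6, 5, 4, 0, 1, 2, 3])) (.leaf (0x101, [8, 7, 6, 5, 4, 0, 1, 2, 3])))) (.node 0xfd (.leaf (0x12d, [8, 7, 6, 5, 4, 0, 1, 2, 3])) (.node 0xfe (.leaf (0x12e, [8, 7, 6, 5, 4, 0, 1, 2, 3])) (.leaf (0x133, [8, 7, 6, 5, 0, 1, 2, 3, 4]))))))) (.node 0x10a (.node 0x104 (.node 0x101 (.node 0x100 (.leaf (0x134, [8, 7, 6, 5, 0, 1, 2, 3, 4])) (.leaf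 (0x136, [8, 7, 6, 5, 0, 1, 2, 3, 4]))) (.node 0x102 (.leaf (0x135, [8, 7, 6, 5, 4, 0, 1, 2, 3])) (.node 0x103 (.leaf (0x129, [8, 7, 6, 5, 0, 1, 2, 3, 4])) (.leaf (0x126, [8, 7, 6, 5, 4, 0, 1, 2, 3]))))) (.node 0x107 (.node 0x105 (.leaf (0xfc, [8, 7, 6, 5, 4, 0, 1, 2, 3])) (.node 0x106 (.leaf (0x127, [8, 7, 6, 5, 4, 0, 1, 2, 3])) (.leaf (0x128, [8, 7, 6, 5, 4, 0, 1, 2, 3])))) (.node 0x108 (.leaf (0x132, [8, 7, 6, 5, 0, 1, 2, 3, 4])) (.node 0x109 (.leaf (0x131, [8, 7, 6, 5, 4, 0, 1, 2, 3])) (.leaf (0x11c, [8, 7, 6, 0, 1, 2, 3, 4, 5])))))) (.node 0x110 (.node 0x10d (.node 0x10b (.leaf (0x11b, [8, 7, 6, 0, 1, 2, 3, 4, 5])) (.node 0x10c (.leaf (0x118, [8, 7, 6, 5, 0, 1, 2, 3, 4])) (.leaf (0x119, [8, 7, 6, 5, 0, 1, 2, 3, 4])))) (.node 0x10e (.leaf (0x10d, [8, 7, 6, 5, 0, 1, 2, 3,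 4])) (.node 0x10f (.leaf (0x11a, [8, 7, 6, 5, 0, 1, 2, 3, 4])) (.leaf (0x121, [8, 7, 6, 0, 1, 2, 3, 4, 5]))))) (.node 0x113 (.node 0x111 (.leaf (0x120, [8, 7, 6, 0, 1, 2, 3, 4, 5])) (.node 0x112 (.leaf (0x11d, [8, 7, 6, 5, 0, 1, 2, 3, 4])) (.leaf (0x11e, [8, 7, 6, 5, 0, 1, 2, 3, 4])))) (.node 0x114 (.leaf (0x116, [8, 7, 6, 5, 0, 1, 2, 3, 4])) (.node 0x115 (.leaf (0x125, [8, 7, 6, 0, 1, 2, 3, 4, 5])) (.leaf (0x124, [8, 7, 6, 0, 1, 2, 3, 4, 5])))))))) (.node 0x12c (.node 0x121 (.node 0x11b (.node 0x118 (.node 0x117 (.leaf (0x122, [8, 7, 6, 5, 0, 1, 2, 3, 4])) (.leaf (0x10e, [8, 7, 6, 5, 0, 1, 2, 3, 4]))) (.node 0x119 (.leaf (0x107, [8, 7, 6, 5, 0, 1, 2, 3, 4])) (.node 0x11a (.leaf (0x108, [8, 7, 6, 5, 0, 1, 2, 3, 4])) (.leaf (0x10a, [8, 7, 6, 5, 4, 0, 1, 2, 3]))))) (.node 0x11e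 (.node 0x11c (.leaf (0x10b, [8, 7, 6, 5, 4, 0, 1, 2, 3])) (.node 0x11d (.leaf (0xee, [8, 7, 6, 5, 4, 0, 1, 2, 3])) (.leaf (0x10c, [8, 7, 6, 5, 4, 0, 1, 2, 3])))) (.node 0x11f (.leaf (0x117, [8, 7, 6, 5, 0, 1, 2, 3, 4])) (.node 0x120 (.leaf (0x111, [8, 7, 6, 5, 0, 1, 2, 3, 4])) (.leaf (0x112, [8, 7, 6, 5, 0, 1, 2, 3, 4])))))) (.node 0x126 (.node 0x123 (.node 0x122 (.leaf (0x114, [8, 7, 6, 5, 4, 0, 1, 2, 3])) (.leaf (0x109, [8, 7, 6, 5, 0, 1, 2, 3, 4]))) (.node 0x124 (.leaf (0xfa, [8, 7, 6, 5, 0, 1, 2, 3, 4])) (.node 0x125 (.leaf (0x104, [8, 7, 6, 5, 4, 0, 1, 2, 3])) (.leaf (0x105, [8, 7, 6, 5, 4, 0, 1, 2, 3]))))) (.node 0x129 (.node 0x127 (.leaf (0xea, [8, 7, 6, 5, 4, 0, 1, 2, 3])) (.node 0x128 (.leaf (0x106, [8, 7, 6, 5, 4, 0, 1, 2, 3])) (.leaf (0x113, [8, 7, 6, 5, 0, 1, 2,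 3, 4])))) (.node 0x12a (.leaf (0x103, [8, 7, 6, 5, 0, 1, 2, 3, 4])) (.node 0x12b (.leaf (0x10f, [8, 7, 6, 5, 4, 0, 1, 2, 3])) (.leaf (0xf4, [8, 7, 6, 5, 0, 1, 2, 3, 4]))))))) (.node 0x137 (.node 0x131 (.node 0x12e (.node 0x12d (.leaf (0xf5, [8, 7, 6, 5, 0, 1, 2, 3, 4])) (.leaf (0xf9, [8, 7, 6, 5, 0, 1, 2, 3, 4]))) (.node 0x12f (.leaf (0xf6, [8, 7, 6, 5, 4, 0, 1, 2, 3])) (.node 0x130 (.leaf (0xf7, [8, 7, 6, 5, 4, 0, 1, 2, 3])) (.leaf (0xe0, [8, 7, 6, 5, 4, 0, 1, 2, 3]))))) (.node 0x134 (.node 0x132 (.leaf (0xf8, [8, 7, 6, 5, 4, 0, 1, 2, 3])) (.node 0x133 (.leaf (0xfe, [8, 7, 6, 5, 0, 1, 2, 3, 4])) (.leaf (0xff, [8, 7, 6, 5, 0, 1, 2, 3, 4])))) (.node 0x135 (.leaf (0x102, [8, 7, 6, 5, 0, 1, 2, 3, 4])) (.node 0x136 (.leaf (0x100, [8, 7, 6, 5, 4, 0, 1, 2, 3])) (.leaf (0xf3, [8,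 7, 6, 5, 0, 1, 2, 3, 4])))))) (.node 0x47b085 (.node 0x13a (.node 0x138 (.leaf (0xf0, [8, 7, 6, 5, 4, 0, 1, 2, 3])) (.node 0x139 (.leaf (0xf1, [8, 7, 6, 5, 4, 0, 1, 2, 3])) (.leaf (0xdb, [8, 7, 6, 5, 4, 0, 1, 2, 3])))) (.node 0x13b (.leaf (0xf2, [8, 7, 6, 5, 4, 0, 1, 2, 3])) (.node 0x13c (.leaf (0xfd, [8, 7, 6, 5, 0, 1, 2, 3, 4])) (.leaf (0xfb, [8, 7, 6, 5, 4, 0, 1, 2, 3]))))) (.node 0x4914c9 (.node 0x48b7c4 (.leaf (0x2c, [8, 7, 6, 5, 4, 0, 1, 2, 3])) (.node 0x490dcb (.leaf (0xe5, [8, 7, 6, 5, 4, 0, 1, 2, 3])) (.leaf (0x37, [8, 7, 6, 5, 4, 0, 1, 2, 3])))) (.node 0x49170b (.leaf (0x33, [8, 7, 6, 5, 4, 3, 0, 1, 2])) (.node 0x4917f4 (.leaf (0x34, [8, 7, 6, 5, 4, 3, 0, 1, 2])) (.leaf (0x2b, [8, 7, 6, 5, 4, 0, 1, 2, 3]))))))))) (.node 0x49afd7 (.node 0x497c1b (.node 0x493b67 (.node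 0x49271b (.node 0x491d11 (.node 0x491803 (.leaf (0x30, [8, 7, 6, 5, 4, 0, 1, 2, 3])) (.leaf (0x36, [8, 7, 6, 5, 4, 0, 1, 2, 3]))) (.node 0x492207 (.leaf (0x11, [8, 7, 6, 5, 4, 0, 1, 2, 3])) (.node 0x49220b (.leaf (0x2d, [8, 7, 6, 5, 4, 0, 1, 2, 3])) (.leaf (0x32, [8, 7, 6, 5, 4, 0, 1, 2, 3]))))) (.node 0x493a4b (.node 0x493809 (.leaf (0xef, [8, 7, 6, 5, 4, 0, 1, 2, 3])) (.node 0x493839 (.leaf (0x28, [8, 7, 6, 5, 4, 3, 0, 1, 2])) (.leaf (0x2e, [8, 7, 6, 5, 4, 3, 0, 1, 2])))) (.node 0x493a7b (.leaf (0x29, [8, 7, 6, 5, 4, 3, 0, 1, 2])) (.node 0x493b65 (.leaf (0x2f, [8, 7, 6, 5, 4, 3, 0, 1, 2])) (.leaf (0x1d, [8, 7, 6, 5, 4, 0, 1, 2, 3])))))) (.node 0x496dec (.node 0x495ba9 (.node 0x493b7f (.leaf (0x2a, [8, 7, 6, 5, 4, 0, 1, 2, 3])) (.leaf (0x27, [8, 7, 6, 5, 4, 0, 1, 2, 3])))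 (.node 0x495deb (.leaf (0xec, [8, 7, 6, 5, 4, 3, 0, 1, 2])) (.node 0x495ed7 (.leaf (0xed, [8, 7, 6, 5, 4, 3, 0, 1, 2])) (.leaf (0xe9, [8, 7, 6, 5, 4, 0, 1, 2, 3]))))) (.node 0x49730b (.node 0x496def (.leaf (0xd8, [8, 7, 6, 5, 4, 0, 1, 2, 3])) (.node 0x497307 (.leaf (0xe1, [8, 7, 6, 5, 4, 0, 1, 2, 3])) (.leaf (0xe6, [8, 7, 6, 5, 4, 0, 1, 2, 3])))) (.node 0x4979d9 (.leaf (0xeb, [8, 7, 6, 5, 4, 0, 1, 2, 3])) (.node 0x497a09 (.leaf (0xe2, [8, 7, 6, 5, 4, 3, 0, 1, 2])) (.leaf (0xe7, [8, 7, 6, 5, 4, 3, 0, 1, 2]))))))) (.node 0x49a48f (.node 0x49a08b (.node 0x497d37 (.node 0x497c4b (.leaf (0xe3, [8, 7, 6, 5, 4, 3, 0, 1, 2])) (.leaf (0xe8, [8, 7, 6, 5, 4, 3, 0, 1, 2]))) (.node 0x499d49 (.leaf (0xe4, [8, 7, 6, 5, 4, 0, 1, 2, 3])) (.node 0x499f8b (.leaf (0xde, [8, 7, 6, 5, 4, 3, 0,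 1, 2])) (.leaf (0xdf, [8, 7, 6, 5, 4, 3, 0, 1, 2]))))) (.node 0x49a0a5 (.node 0x49a08c (.leaf (0xdc, [8, 7, 6, 5, 4, 0, 1, 2, 3])) (.node 0x49a0a4 (.leaf (0x21, [8, 7, 6, 5, 4, 0, 1, 2, 3])) (.leaf (0xdd, [8, 7, 6, 5, 4, 0, 1, 2, 3])))) (.node 0x49a0a7 (.leaf (0xd6, [8, 7, 6, 5, 4, 0, 1, 2, 3])) (.node 0x49a24d (.leaf (0xd7, [8, 7, 6, 5, 4, 0, 1, 2, 3])) (.leaf (0x24, [8, 7, 6, 5, 4, 3, 0, 1, 2])))))) (.node 0x49aeaf (.node 0x49a5ab (.node 0x49a5a8 (.leaf (0x25, [8, 7, 6, 5, 4, 3, 0, 1, 2])) (.node 0x49a5a9 (.leaf (0x23, [8, 7, 6, 5, 4, 0, 1, 2, 3])) (.leaf (0x1b, [8, 7, 6, 5, 4, 0, 1, 2, 3])))) (.node 0x49ac6d (.leaf (0x1c, [8, 7, 6, 5, 4, 0, 1, 2, 3])) (.node 0x49ac79 (.leaf (0xd9, [8, 7, 6, 5, 4, 3, 0, 1, 2])) (.leaf (0x1e, [8, 7, 6, 5, 4, 3, 0, 1, 2]))))) (.node 0x49afc9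 (.node 0x49aebb (.leaf (0xda, [8, 7, 6, 5, 4, 3, 0, 1, 2])) (.node 0x49afc7 (.leaf (0x1f, [8, 7, 6, 5, 4, 3, 0, 1, 2])) (.leaf (0x22, [8, 7, 6, 5, 4, 0, 1, 2, 3])))) (.node 0x49afcb (.leaf (0xd0, [8, 7, 6, 5, 4, 0, 1, 2, 3])) (.node 0x49afd5 (.leaf (0xd1, [8, 7, 6, 5, 4, 0, 1, 2, 3])) (.leaf (0x14, [8, 7, 6, 5, 4, 0, 1, 2, 3])))))))) (.node 0x49dc57 (.node 0x49cac1 (.node 0x49bf06 (.node 0x49b9dc (.node 0x49b9da (.leaf (0x15, [8, 7, 6, 5, 4, 0, 1, 2, 3])) (.leaf (0x16, [8, 7, 6, 5, 4, 0, 1, 2, 3]))) (.node 0x49ba02 (.leaf (0xd3, [8, 7, 6, 5, 4, 0, 1, 2, 3])) (.node 0x49beeb (.leaf (0xc3, [8, 7, 6, 5, 4, 0, 1, 2, 3])) (.leaf (0x18, [8, 7, 6, 5, 4, 0, 1, 2, 3]))))) (.node 0x49c3fb (.node 0x49c0b9 (.leaf (0x3, [8, 7, 6, 5, 4, 0, 1, 2, 3])) (.node 0x49c2fb (.leaf (0xd4, [8, 7,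 6, 5, 4, 3, 0, 1, 2])) (.leaf (0xd5, [8, 7, 6, 5, 4, 3, 0, 1, 2])))) (.node 0x49c416 (.leaf (0xd2, [8, 7, 6, 5, 4, 0, 1, 2, 3])) (.node 0x49c932 (.leaf (0xcd, [8, 7, 6, 5, 4, 0, 1, 2, 3])) (.leaf (0xcc, [8, 7, 6, 5, 4, 0, 1, 2, 3])))))) (.node 0x49d72f (.node 0x49ce1e (.node 0x49cd03 (.leaf (0x19, [8, 7, 6, 5, 4, 3, 0, 1, 2])) (.leaf (0x1a, [8, 7, 6, 5, 4, 3, 0, 1, 2]))) (.node 0x49d4ed (.leaf (0x10, [8, 7, 6, 5, 4, 0, 1, 2, 3])) (.node 0x49d4f9 (.leaf (0xce, [8, 7, 6, 5, 4, 3, 0, 1, 2])) (.leaf (0x12, [8, 7, 6, 5, 4, 3, 0, 1, 2]))))) (.node 0x49d84a (.node 0x49d73b (.leaf (0xcf, [8, 7, 6, 5, 4, 3, 0, 1, 2])) (.node 0x49d847 (.leaf (0x13, [8, 7, 6, 5, 4, 3, 0, 1, 2])) (.leaf (0x17, [8, 7, 6, 5, 4, 0, 1, 2, 3])))) (.node 0x49d856 (.leaf (0xc9, [8, 7, 6, 5, 4, 0, 1, 2, 3]))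 (.node 0x49da15 (.leaf (0xc, [8, 7, 6, 5, 4, 0, 1, 2, 3])) (.leaf (0xca, [8, 7, 6, 5, 4, 3, 0, 1, 2]))))))) (.node 0x49f6b4 (.node 0x49e282 (.node 0x49dd4d (.node 0x49dd4c (.leaf (0xcb, [8, 7, 6, 5, 4, 3, 0, 1, 2])) (.leaf (0xc8, [8, 7, 6, 5, 4, 0, 1, 2, 3]))) (.node 0x49dd71 (.leaf (0xa, [8, 7, 6, 5, 4, 0, 1, 2, 3])) (.node 0x49e276 (.leaf (0xc4, [8, 7, 6, 5, 4, 0, 1, 2, 3])) (.leaf (0xc7, [8, 7, 6, 5, 4, 0, 1, 2, 3]))))) (.node 0x49f365 (.node 0x49e79e (.leaf (0x9, [8, 7, 6, 5, 4, 0, 1, 2, 3])) (.node 0x49f359 (.leaf (0xc2, [8, 7, 6, 5, 4, 0, 1, 2, 3])) (.leaf (0xc5, [8, 7, 6, 5, 4, 3, 0, 1, 2])))) (.node 0x49f59b (.leaf (0x7, [8, 7, 6, 5, 4, 3, 0, 1, 2])) (.node 0x49f5a7 (.leaf (0xc6, [8, 7, 6, 5, 4, 3, 0, 1, 2])) (.leaf (0x8, [8, 7, 6, 5, 4, 3, 0, 1, 2])))))) (.node 0x4a00ee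 (.node 0x49fbb9 (.node 0x49f881 (.leaf (0xb, [8, 7, 6, 5, 4, 0, 1, 2, 3])) (.node 0x49fac3 (.leaf (0xc0, [8, 7, 6, 5, 4, 3, 0, 1, 2])) (.leaf (0xc1, [8, 7, 6, 5, 4, 3, 0, 1, 2])))) (.node 0x49fbc5 (.leaf (0x5, [8, 7, 6, 5, 4, 0, 1, 2, 3])) (.node 0x4a00be (.leaf (0x4, [8, 7, 6, 5, 4, 0, 1, 2, 3])) (.leaf (0xf, [8, 7, 6, 5, 4, 0, 1, 2, 3]))))) (.node 0x4a09c3 (.node 0x4a0781 (.leaf (0x2, [8, 7, 6, 5, 4, 0, 1, 2, 3])) (.node 0x4a07b1 (.leaf (0xd, [8, 7, 6, 5, 4, 3, 0, 1, 2])) (.leaf (0x0, [8, 7, 6, 5, 4, 3, 0, 1, 2])))) (.node 0x4a09f3 (.leaf (0xe, [8, 7, 6, 5, 4, 3, 0, 1, 2])) (.node 0x4a0add (.leaf (0x1, [8, 7, 6, 5, 4, 3, 0, 1, 2])) (.leaf (0x6, [8, 7, 6, 5, 4, 0, 1, 2, 3])))))))))))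

/-- the inverse map -/
noncomputable def G : NT ℕ := (.node 0xb4 (.node 0x5a (.node 0x2d (.node 0x16 (.node 0xb (.node 0x5 (.node 0x2 (.node 0x1 (.leaf 0x4a07b1) (.leaf 0x4a09f3)) (.node 0x3 (.leaf 0x4a00ee) (.node 0x4 (.leaf 0x49bf06) (.leaf 0x49fbc5)))) (.node 0x8 (.node 0x6 (.leaf 0x49fbb9) (.node 0x7 (.leaf 0x4a0add) (.leaf 0x49f365))) (.node 0x9 (.leaf 0x49f5a7) (.node 0xa (.leaf 0x49e282) (.leaf 0x49dd4d))))) (.node 0x10 (.node 0xd (.node 0xc (.leaf 0x49f6b4) (.leaf 0x49d856)) (.node 0xe (.leaf 0x4a0781) (.node 0xf (.leaf 0x4a09c3) (.leaf 0x4a00be)))) (.node 0x13 (.node 0x11 (.leaf 0x49ce1e) (.node 0x12 (.leaf 0x491d11) (.leaf 0x49d4f9))) (.node 0x14 (.leaf 0x49d73b) (.node 0x15 (.leaf 0x49afd5) (.leaf 0x49afd7)))))) (.node 0x21 (.node 0x1b (.node 0x18 (.node 0x17 (.leaf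 0x49b9da) (.leaf 0x49d847)) (.node 0x19 (.leaf 0x49beeb) (.node 0x1a (.leaf 0x49cac1) (.leaf 0x49cd03)))) (.node 0x1e (.node 0x1c (.leaf 0x49a5a9) (.node 0x1d (.leaf 0x49a5ab) (.leaf 0x493b65))) (.node 0x1f (.leaf 0x49ac79) (.node 0x20 (.leaf 0x49aebb) (.leaf 0x7f))))) (.node 0x27 (.node 0x24 (.node 0x22 (.leaf 0x49a08c) (.node 0x23 (.leaf 0x49afc7) (.leaf 0x49a5a8))) (.node 0x25 (.leaf 0x49a24d) (.node 0x26 (.leaf 0x49a48f) (.leaf 0x89)))) (.node 0x2a (.node 0x28 (.leaf 0x493b7f) (.node 0x29 (.leaf 0x493809) (.leaf 0x493a4b))) (.node 0x2b (.leaf 0x493b67) (.node 0x2c (.leaf 0x4917f4) (.leaf 0x47b085))))))) (.node 0x43 (.node 0x38 (.node 0x32 (.node 0x2f (.node 0x2e (.leaf 0x492207) (.leaf 0x493839)) (.node 0x30 (.leaf 0x493a7b) (.node 0x31 (.leaf 0x4917f7) (.leaf 0x6b))))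 (.node 0x35 (.node 0x33 (.leaf 0x49220b) (.node 0x34 (.leaf 0x4914c9) (.leaf 0x49170b))) (.node 0x36 (.leaf 0x75) (.node 0x37 (.leaf 0x491803) (.leaf 0x490dcb))))) (.node 0x3d (.node 0x3a (.node 0x39 (.leaf 0x7d) (.leaf 0x7e)) (.node 0x3b (.leaf 0x80) (.node 0x3c (.leaf 0x7c) (.leaf 0x7b)))) (.node 0x40 (.node 0x3e (.leaf 0x7a) (.node 0x3f (.leaf 0x79) (.leaf 0x87))) (.node 0x41 (.leaf 0x88) (.node 0x42 (.leaf 0x8a) (.leaf 0x86)))))) (.node 0x4e (.node 0x48 (.node 0x45 (.node 0x44 (.leaf 0x67) (.leaf 0x85)) (.node 0x46 (.leaf 0x44) (.node 0x47 (.leaf 0x84) (.leaf 0x83)))) (.node 0x4b (.node 0x49 (.leaf 0x82) (.node 0x4a (.leaf 0x81) (.leaf 0x8c))) (.node 0x4c (.leaf 0x4f) (.node 0x4d (.leaf 0x8b) (.leaf 0x6f))))) (.node 0x54 (.node 0x51 (.node 0x4f (.leaf 0x69) (.node 0x50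 (.leaf 0x6a) (.leaf 0x6c))) (.node 0x52 (.leaf 0x68) (.node 0x53 (.leaf 0x66) (.leaf 0x65)))) (.node 0x57 (.node 0x55 (.leaf 0x73) (.node 0x56 (.leaf 0x74) (.leaf 0x76))) (.node 0x58 (.leaf 0x5a) (.node 0x59 (.leaf 0x72) (.leaf 0x71)))))))) (.node 0x87 (.node 0x70 (.node 0x65 (.node 0x5f (.node 0x5c (.node 0x5b (.leaf 0x2e) (.leaf 0x70)) (.node 0x5d (.leaf 0x6e) (.node 0x5e (.leaf 0x6d) (.leaf 0x78)))) (.node 0x62 (.node 0x60 (.leaf 0x39) (.node 0x61 (.leaf 0x60) (.leaf 0x77))) (.node 0x63 (.leaf 0x57) (.node 0x64 (.leaf 0x58) (.leaf 0x59))))) (.node 0x6a (.node 0x67 (.node 0x66 (.leaf 0x5b) (.leaf 0x56)) (.node 0x68 (.leaf 0x55) (.node 0x69 (.leaf 0x5e) (.leaf 0x5f)))) (.node 0x6d (.node 0x6b (.leaf 0x16) (.node 0x6c (.leaf 0x5d) (.leaf 0x5c))) (.node 0x6e (.leaf 0x63) (.node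 0x6f (.leaf 0x1e) (.leaf 0x64)))))) (.node 0x7b (.node 0x75 (.node 0x72 (.node 0x71 (.leaf 0x62) (.leaf 0x61)) (.node 0x73 (.leaf 0x43) (.node 0x74 (.leaf 0x45) (.leaf 0x46)))) (.node 0x78 (.node 0x76 (.leaf 0x42) (.node 0x77 (.leaf 0x41) (.leaf 0x40))) (.node 0x79 (.leaf 0x3f) (.node 0x7a (.leaf 0x4e) (.leaf 0x50))))) (.node 0x81 (.node 0x7e (.node 0x7c (.leaf 0x51) (.node 0x7d (.leaf 0x4d) (.leaf 0x2b))) (.node 0x7f (.leaf 0x4b) (.node 0x80 (.leaf 0x4c) (.leaf 0x4a)))) (.node 0x84 (.node 0x82 (.leaf 0x49) (.node 0x83 (.leaf 0x48) (.leaf 0x47))) (.node 0x85 (.leaf 0x53) (.node 0x86 (.leaf 0x54) (.leaf 0x52))))))) (.node 0x9d (.node 0x92 (.node 0x8c (.node 0x89 (.node 0x88 (.leaf 0x33) (.leaf 0x2d)) (.node 0x8a (.leaf 0x2f) (.node 0x8b (.leaf 0x30) (.leaf 0x2c)))) (.node 0x8f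 (.node 0x8d (.leaf 0x2a) (.node 0x8e (.leaf 0x29) (.leaf 0x38))) (.node 0x90 (.leaf 0x3a) (.node 0x91 (.leaf 0x3b) (.leaf 0x19))))) (.node 0x97 (.node 0x94 (.node 0x93 (.leaf 0x37) (.leaf 0x35)) (.node 0x95 (.leaf 0x36) (.node 0x96 (.leaf 0x34) (.leaf 0x32)))) (.node 0x9a (.node 0x98 (.leaf 0x31) (.node 0x99 (.leaf 0x3d) (.leaf 0x3e))) (.node 0x9b (.leaf 0x24) (.node 0x9c (.leaf 0x3c) (.leaf 0x15)))))) (.node 0xa8 (.node 0xa2 (.node 0x9f (.node 0x9e (.leaf 0x17) (.leaf 0x18)) (.node 0xa0 (.leaf 0x1a) (.node 0xa1 (.leaf 0x14) (.leaf 0x13)))) (.node 0xa5 (.node 0xa3 (.leaf 0x1d) (.node 0xa4 (.leaf 0x1f) (.leaf 0x5))) (.node 0xa6 (.leaf 0x1c) (.node 0xa7 (.leaf 0x1b) (.leaf 0x22))))) (.node 0xae (.node 0xab (.node 0xa9 (.leaf 0x23) (.node 0xaa (.leaf 0x25) (.leaf 0x21))) (.node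 0xac (.leaf 0x20) (.node 0xad (.leaf 0x28) (.leaf 0xb)))) (.node 0xb1 (.node 0xaf (.leaf 0x27) (.node 0xb0 (.leaf 0x26) (.leaf 0x3))) (.node 0xb2 (.leaf 0x4) (.node 0xb3 (.leaf 0x6) (.leaf 0x7))))))))) (.node 0x10e (.node 0xe1 (.node 0xca (.node 0xbf (.node 0xb9 (.node 0xb6 (.node 0xb5 (.leaf 0x2) (.leaf 0x1)) (.node 0xb7 (.leaf 0xa) (.node 0xb8 (.leaf 0xc) (.leaf 0xd)))) (.node 0xbc (.node 0xba (.leaf 0x9) (.node 0xbb (.leaf 0x8) (.leaf 0x10))) (.node 0xbd (.leaf 0x11) (.node 0xbe (.leaf 0x12) (.leaf 0xf))))) (.node 0xc4 (.node 0xc1 (.node 0xc0 (.leaf 0xe) (.leaf 0x49f881)) (.node 0xc2 (.leaf 0x49fac3) (.node 0xc3 (.leaf 0x49e79e) (.leaf 0x49ba02)))) (.node 0xc7 (.node 0xc5 (.leaf 0x49dd71) (.node 0xc6 (.leaf 0x49f359) (.leaf 0x49f59b))) (.node 0xc8 (.leaf 0x49e276) (.node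 0xc9 (.leaf 0x49dd4c) (.leaf 0x49d84a)))))) (.node 0xd5 (.node 0xcf (.node 0xcc (.node 0xcb (.leaf 0x49da15) (.leaf 0x49dc57)) (.node 0xcd (.leaf 0x49c932) (.node 0xce (.leaf 0x49c416) (.leaf 0x49d4ed)))) (.node 0xd2 (.node 0xd0 (.leaf 0x49d72f) (.node 0xd1 (.leaf 0x49afc9) (.leaf 0x49afcb))) (.node 0xd3 (.leaf 0x49c3fb) (.node 0xd4 (.leaf 0x49b9dc) (.leaf 0x49c0b9))))) (.node 0xdb (.node 0xd8 (.node 0xd6 (.leaf 0x49c2fb) (.node 0xd7 (.leaf 0x49a0a5) (.leaf 0x49a0a7))) (.node 0xd9 (.leaf 0x496dec) (.node 0xda (.leaf 0x49ac6d) (.leaf 0x49aeaf)))) (.node 0xde (.node 0xdc (.leaf 0x139) (.node 0xdd (.leaf 0x49a08b) (.leaf 0x49a0a4))) (.node 0xdf (.leaf 0x499d49) (.node 0xe0 (.leaf 0x499f8b) (.leaf 0x130))))))) (.node 0xf7 (.node 0xec (.node 0xe6 (.node 0xe3 (.node 0xe2 (.leaf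 0x496def) (.leaf 0x4979d9)) (.node 0xe4 (.leaf 0x497c1b) (.node 0xe5 (.leaf 0x497d37) (.leaf 0x48b7c4)))) (.node 0xe9 (.node 0xe7 (.leaf 0x497307) (.node 0xe8 (.leaf 0x497a09) (.leaf 0x497c4b))) (.node 0xea (.leaf 0x495ed7) (.node 0xeb (.leaf 0x126) (.leaf 0x49730b))))) (.node 0xf1 (.node 0xee (.node 0xed (.leaf 0x495ba9) (.leaf 0x495deb)) (.node 0xef (.leaf 0x11c) (.node 0xf0 (.leaf 0x49271b) (.leaf 0x137)))) (.node 0xf4 (.node 0xf2 (.leaf 0x138) (.node 0xf3 (.leaf 0x13a) (.leaf 0x136))) (.node 0xf5 (.leaf 0x12b) (.node 0xf6 (.leaf 0x12c) (.leaf 0x12e)))))) (.node 0x102 (.node 0xfc (.node 0xf9 (.node 0xf8 (.leaf 0x12f) (.leaf 0x131)) (.node 0xfa (.leaf 0x12d) (.node 0xfb (.leaf 0x123) (.leaf 0x13c)))) (.node 0xff (.node 0xfd (.leaf 0x104) (.node 0xfe (.leaf 0x13b) (.leaf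 0x132))) (.node 0x100 (.leaf 0x133) (.node 0x101 (.leaf 0x135) (.leaf 0xfb))))) (.node 0x108 (.node 0x105 (.node 0x103 (.leaf 0x134) (.node 0x104 (.leaf 0x129) (.leaf 0x124))) (.node 0x106 (.leaf 0x125) (.node 0x107 (.leaf 0x127) (.leaf 0x118)))) (.node 0x10b (.node 0x109 (.leaf 0x119) (.node 0x10a (.leaf 0x122) (.leaf 0x11a))) (.node 0x10c (.leaf 0x11b) (.node 0x10d (.leaf 0x11d) (.leaf 0x10d)))))))) (.node 0x13b (.node 0x124 (.node 0x119 (.node 0x113 (.node 0x110 (.node 0x10f (.leaf 0x117) (.leaf 0x12a)) (.node 0x111 (.leaf 0xf1) (.node 0x112 (.leaf 0x11f) (.leaf 0x120)))) (.node 0x116 (.node 0x114 (.leaf 0x128) (.node 0x115 (.leaf 0x121) (.leaf 0xe7))) (.node 0x117 (.leaf 0x113) (.node 0x118 (.leaf 0x11e) (.leaf 0x10b))))) (.node 0x11e (.node 0x11b (.node 0x11a (.leaf 0x10c)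 (.leaf 0x10e)) (.node 0x11c (.leaf 0x10a) (.node 0x11d (.leaf 0x109) (.leaf 0x111)))) (.node 0x121 (.node 0x11f (.leaf 0x112) (.node 0x120 (.leaf 0xd2) (.leaf 0x110))) (.node 0x122 (.leaf 0x10f) (.node 0x123 (.leaf 0x116) (.leaf 0xda)))))) (.node 0x12f (.node 0x129 (.node 0x126 (.node 0x125 (.leaf 0x115) (.leaf 0x114)) (.node 0x127 (.leaf 0x103) (.node 0x128 (.leaf 0x105) (.leaf 0x106)))) (.node 0x12c (.node 0x12a (.leaf 0x102) (.node 0x12b (.leaf 0xf7) (.leaf 0xf8))) (.node 0x12d (.leaf 0xfa) (.node 0x12e (.leaf 0xfc) (.leaf 0xfd))))) (.node 0x135 (.node 0x132 (.node 0x130 (.leaf 0xf9) (.node 0x131 (.leaf 0xef) (.leaf 0x108))) (.node 0x133 (.leaf 0x107) (.node 0x134 (.leaf 0xfe) (.leaf 0xff)))) (.node 0x138 (.node 0x136 (.leaf 0x101) (.node 0x137 (.leaf 0x100) (.leaf 0xf5)))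 (.node 0x139 (.leaf 0xf0) (.node 0x13a (.leaf 0xf2) (.leaf 0xf3))))))) (.node 0x151 (.node 0x146 (.node 0x140 (.node 0x13d (.node 0x13c (.leaf 0xe4) (.leaf 0xe5)) (.node 0x13e (.leaf 0xee) (.node 0x13f (.leaf 0xe6) (.leaf 0xe8)))) (.node 0x143 (.node 0x141 (.leaf 0xe9) (.node 0x142 (.leaf 0xd5) (.leaf 0xe3))) (.node 0x144 (.leaf 0xf6) (.node 0x145 (.leaf 0xeb) (.leaf 0xec))))) (.node 0x14b (.node 0x148 (.node 0x147 (.leaf 0xf4) (.leaf 0xed)) (.node 0x149 (.leaf 0xdf) (.node 0x14a (.leaf 0xea) (.leaf 0xd1)))) (.node 0x14e (.node 0x14c (.leaf 0xd3) (.node 0x14d (.leaf 0xd4) (.leaf 0xd6))) (.node 0x14f (.leaf 0xd0) (.node 0x150 (.leaf 0xcf) (.leaf 0xd9)))))) (.node 0x15c (.node 0x156 (.node 0x153 (.node 0x152 (.leaf 0xdb) (.leaf 0xc4)) (.node 0x154 (.leaf 0xd8) (.node 0x155 (.leaf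 0xd7) (.leaf 0xde)))) (.node 0x159 (.node 0x157 (.leaf 0xe0) (.node 0x158 (.leaf 0xdd) (.leaf 0xdc))) (.node 0x15a (.leaf 0xca) (.node 0x15b (.leaf 0xe2) (.leaf 0xe1))))) (.node 0x162 (.node 0x15f (.node 0x15d (.leaf 0xc3) (.node 0x15e (.leaf 0xc5) (.leaf 0xc6))) (.node 0x160 (.leaf 0xc2) (.node 0x161 (.leaf 0xc1) (.leaf 0xc9)))) (.node 0x165 (.node 0x163 (.leaf 0xcb) (.node 0x164 (.leaf 0xc8) (.leaf 0xc7))) (.node 0x166 (.leaf 0xce) (.node 0x167 (.leaf 0xcd) (.leaf 0xcc))))))))))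

theorem chk : chkReorderF 9 24 Pool.Agent.H34.R4.C.Ls1 Lp P Q F G = true := by decide +kernel

theorem homeo : PLHomeo (glueL 9 24 Pool.Agent.H34.R4.C.Ls1) (glueL 9 24 Pool.Agent.H95.TB.T0.rowsT) :=
  (PLHomeo.of_chkReorderF chk).trans (PLHomeo.of_perm (by decide +kernel))

end Pool.Agent.H34.R4.LinkCT
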