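import Pool.Agent.H34.R4.LinkAB
import Pool.Agent.H34.R4.LinkBC
import Pool.Agent.H34.R4.LinkCT
import Pool.Agent.H34.PLE.SphereTop
import Pool.Agent.H95.TB.T0Main
import Pool.Agent.H95.TB.Cross

/-! The arc complex of the sphere with four holes. -/

namespace Pool.Agent.H34.R4

open Pool.Agent.H34.PLE Pool.Agent.H34.PLE.Stair Pool.Agent.H96.Arc Pool.Agent.H95.TB

theorem toT0 : PLHomeo (arcComplex 0 4 0) (glueL 9 24 T0.rowsT) :=
  ((((((A040.homeo.trans A.homeo).trans LinkAB.homeo).trans B.homeo).trans LinkBC.homeo).trans C.homeo).trans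
    LinkCT.homeo)

theorem onto : PLHomeoOnto (arcComplex 0 4 0) (bdSx 3 ×ˢ {v : Fin 8 → ℝ | ∑ i, |v i| = 1}) :=
  T0.onto.of_plHomeo toT0

theorem spheres : Nonempty ((arcComplex 0 4 0).Real ≃ₜ
    Metric.sphere (0 : EuclideanSpace ℝ (Fin 3)) 1 × Metric.sphere (0 : EuclideanSpace ℝ (Fin 8)) 1) := by
  obtain ⟨e⟩ := onto.homeomorph
  obtain ⟨e3⟩ := bdSx_homeo_sphere 3 (by decide)
  exact ⟨(e.trans (Homeomorph.Set.prod _ _)).trans (e3.prodCongr (crossSphere 8))⟩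

end Pool.Agent.H34.R4
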